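import Pool.Agent.GEN.StmtsPT
import Pool.Agent.Helper73_Simp2.Zalg

/-!
# Squad GEN, block PT, row ZAI: the operator kills the flat cones
-/

set_option autoImplicit false

namespace Pool.Agent.GEN.H87

open Finset Pool.Agent.Helper6_Mono Pool.Agent.Helper30_Simp Pool.Agent.Helper30_Simp2
  Pool.Agent.GEN Pool.Agent.GEN.PT

open scoped Classical in
theorem zai (hPAU : PauStmt) (hRGB : RgbStmt) (hFCT : FctStmt) (hEVB : EvbStmt)
    (hPFT : PftStmt) : ZaiStmt := by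
  intro σ _ M hM x hK P z hz R hR
  obtain ⟨hCtn, hzero⟩ := hFCT σ M hM x R hR hK
  have hmem : ∀ T, ∀ Q ∈ wT M T, (∀ j ∈ Q, Sum.inl j ∉ T) ∧ Stab (monT M T) Q ∧
      ∃ K ⊆ Q, KS (monT M T) K := by
    intro T Q hQ
    unfold wT at hQ
    rw [Finset.mem_filter] at hQ
    exact hQ.2
  refine hPAU (Wa M) σ (PowerSeries ℤ) (fR M R) (wT M)
    (fun j => Ev M (PowerSeries ℤ) (fun i => if i = j then 1 else 0)
      - MvPolynomial.C PowerSeries.X) (PZ M z) hCtn ?_ ?_ (H40.RI M P) (Xs M _ R) ?_ ?_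
  · intro T _ Q hQ
    obtain ⟨h1, h2, _⟩ := hmem T Q hQ
    obtain ⟨blk, hb1, hb2, hb3⟩ := hEVB σ M (PowerSeries ℤ) PowerSeries.X T Q h1 h2
    exact hRGB (Wa M) σ (PowerSeries ℤ) T Q _ blk PowerSeries.X hb1 hb2 hb3
  · intro T _ Q hQ
    obtain ⟨h1, _, K, hKQ, hKS⟩ := hmem T Q hQ
    have hu : IsUnit (1 - (PowerSeries.X : PowerSeries ℤ)) := by
      rw [PowerSeries.isUnit_iff_constantCoeff]
      simp
    refine hPFT σ M (PowerSeries ℤ) PowerSeries.X hu T K _ (fun j hj => h1 j (hKQ hj)) hKS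
      ?_ ?_ z hz
    · intro ρ hρ
      exact (le_sup_right : _ ≤ JX _ T Q) (Ideal.subset_span ⟨ρ, hρ, rfl⟩)
    · intro j hj
      exact (le_sup_left : _ ≤ JX _ T Q) (Ideal.subset_span ⟨j, by exact_mod_cast hKQ hj, rfl⟩)
  · intro j
    have h1 := H40.Ev_mem M P (fun i => if i = j then 1 else 0)
    have h2 : ∑ i, (if i = j then 1 else 0) = 1 := by
      rw [Finset.sum_ite_eq' univ j]
      simp
    rw [h2, pow_one] at h1
    exact (H40.RI M P).mul_mem_right _ h1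
  · intro S hS
    have h1 : (∏ ρ ∈ S, (1 - (MvPolynomial.X ρ : MvPolynomial (Wa M) (PowerSeries ℤ))))
        * Xs M (PowerSeries ℤ) R = Xs M (PowerSeries ℤ) (R ∪ S) * Xs M (PowerSeries ℤ) (R ∩ S) := by
      rw [← H73.Xs_mul R S, mul_comm]
      rfl
    rw [h1]
    exact (H40.RI M P).mul_mem_right _ (H40.Xs_mem M P (R ∪ S) (hzero S hS))

end Pool.Agent.GEN.H87
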